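import Mathlib

namespace Pool.Agent.Results.MP_b20271_lc.NotTunable

/-- `B` refines `A`: every member of `A` is a union of members of `B`. -/
def Refines {W : Type} (B A : Set (Set W)) : Prop :=
  ∀ U ∈ A, ∃ S ⊆ B, U = ⋃₀ S

/-- The partition `A` is tuned in the frame `(W, R)`. -/
def Tuned {W : Type} (R : W → W → Prop) (A : Set (Set W)) : Prop :=
  ∀ U ∈ A, ∀ V ∈ A, (∃ u ∈ U, ∃ v ∈ V, R u v) → ∀ u ∈ U, ∃ v ∈ V, R u v

/-- The frame `(W, R)` is tunable. -/
def Tunable {W : Type} (R : W → W → Prop) : Prop :=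
  ∀ A : Set (Set W), Setoid.IsPartition A → A.Finite →
    ∃ B : Set (Set W), Setoid.IsPartition B ∧ B.Finite ∧ Refines B A ∧ Tuned R B

/-- The relation of the direct product of two frames. -/
def ProdRel {W₁ W₂ : Type} (R₁ : W₁ → W₁ → Prop) (R₂ : W₂ → W₂ → Prop) (x y : W₁ × W₂) : Prop :=
  R₁ x.1 y.1 ∧ R₂ x.2 y.2

lemma tunable_ne : Tunable (fun x y : ℕ => x ≠ y) := by
  intro A hA hf
  refine ⟨A, hA, hf, fun U hU => ⟨{U}, by simpa using hU, by simp⟩, ?_⟩
  rintro U hU V hV ⟨u₀, hu₀, v₀, hv₀, h⟩ u hu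
  by_cases h1 : u = v₀
  · subst h1
    have : U = V := (hA.2 u).unique ⟨hU, hu⟩ ⟨hV, hv₀⟩
    exact ⟨u₀, this ▸ hu₀, fun h' => h h'.symm⟩
  · exact ⟨v₀, hv₀, h1⟩

def col (p : ℕ × ℕ) : Fin 4 :=
  if p = (0, 0) then 0 else if p.1 = p.2 then 1 else if p.1 + 1 = p.2 then 2 else 3

lemma col0 {q : ℕ × ℕ} (h : col q = col (0, 0)) : q = (0, 0) := by
  have e : col (0, 0) = 0 := by simp [col]
  rw [e] at h
  unfold col at h
  split_ifs at h with h1 h2 h3
  · exact h1
  all_goals exact absurd h (by decide)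

lemma col1 {q : ℕ × ℕ} {n : ℕ} (h : col q = col (n + 1, n + 1)) : q.1 = q.2 := by
  have e : col (n + 1, n + 1) = 1 := by simp [col]
  rw [e] at h
  unfold col at h
  split_ifs at h with h1 h2 h3
  · exact absurd h (by decide)
  · exact h2
  all_goals exact absurd h (by decide)

lemma col2 {q : ℕ × ℕ} {n : ℕ} (h : col q = col (n, n + 1)) : q.1 + 1 = q.2 := by
  have e : col (n, n + 1) = 2 := by simp [col]
  rw [e] at h
  unfold col at h
  split_ifs at h with h1 h2 h3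
  · exact absurd h (by decide)
  · exact absurd h (by decide)
  · exact h3
  · exact absurd h (by decide)

theorem result : ∃ (W₁ W₂ : Type) (R₁ : W₁ → W₁ → Prop) (R₂ : W₂ → W₂ → Prop),
    Tunable R₁ ∧ Tunable R₂ ∧ ¬ Tunable (ProdRel R₁ R₂) := by
  refine ⟨ℕ, ℕ, _, _, tunable_ne, tunable_ne, fun h => ?_⟩
  obtain ⟨B, hB, hf, hr, ht⟩ := h (Setoid.ker col).classes (Setoid.isPartition_classes _)
    (Setoid.finite_classes_ker col)
  have hcol : ∀ U ∈ B, ∀ p ∈ U, ∀ q ∈ U, col q = col p := by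
    intro U hU p hp q hq
    obtain ⟨S, hS, e⟩ := hr _ ((Setoid.ker col).mem_classes p)
    have hp' : p ∈ ⋃₀ S := by rw [← e]; exact (Setoid.ker col).refl' p
    obtain ⟨V, hV, hpV⟩ := hp'
    have : U = V := (hB.2 p).unique ⟨hU, hp⟩ ⟨hS hV, hpV⟩
    have hq' : q ∈ ⋃₀ S := ⟨V, hV, this ▸ hq⟩
    rw [← e] at hq'
    exact hq'
  have hcross : ∀ s : ℕ × ℕ, {s} ∈ B → ∀ U ∈ B, ∀ p ∈ U, ∀ q ∈ U, (p.1 = s.1 ∨ p.2 = s.2) →
      (q.1 = s.1 ∨ q.2 = s.2) := by
    intro s hs U hU p hp q hq hps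
    by_contra hn
    push Not at hn
    obtain ⟨v, hv, h1, h2⟩ := ht U hU _ hs ⟨q, hq, s, rfl, hn⟩ p hp
    obtain rfl : v = s := hv
    tauto
  have hsing : ∀ p : ℕ × ℕ, (∀ U ∈ B, p ∈ U → ∀ q ∈ U, q = p ∨ {q} ∈ B) → {p} ∈ B := by
    intro p hp
    obtain ⟨U, ⟨hU, hpU⟩, -⟩ := hB.2 p
    have : U = {p} := by
      refine Set.eq_singleton_iff_unique_mem.2 ⟨hpU, fun q hq => ?_⟩
      rcases hp U hU hpU q hq with h | h
      · exact h
      · have : U = {q} := (hB.2 q).unique ⟨hU, hq⟩ ⟨h, rfl⟩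
        rw [this] at hpU
        exact (Set.mem_singleton_iff.1 hpU).symm
    exact this ▸ hU
  have key : ∀ n : ℕ, {(n, n)} ∈ B ∧ ∀ m, m + 1 = n → {(m, n)} ∈ B := by
    intro n
    induction n with
    | zero =>
      refine ⟨hsing _ fun U hU hp q hq => Or.inl ?_, fun m hm => by omega⟩
      exact col0 (hcol U hU _ hp q hq)
    | succ n ih =>
      have h1 : {(n, n + 1)} ∈ B := by
        refine hsing _ fun U hU hp q hq => ?_
        have c1 := hcol U hU _ hp q hq
        have c2 := hcross _ ih.1 U hU _ hp q hq (Or.inl rfl)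
        have c3 : q.1 + 1 = q.2 := col2 c1
        obtain ⟨a, b⟩ := q
        simp only at c2 c3
        rcases c2 with rfl | rfl
        · left; rw [c3]
        · right; exact ih.2 a c3
      refine ⟨hsing _ fun U hU hp q hq => ?_, fun m hm => ?_⟩
      · have c1 := hcol U hU _ hp q hq
        have c2 := hcross _ h1 U hU _ hp q hq (Or.inr rfl)
        have c3 : q.1 = q.2 := col1 c1
        obtain ⟨a, b⟩ := q
        simp only at c2 c3
        subst c3
        rcases c2 with rfl | rfl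
        · right; exact ih.1
        · left; rfl
      · obtain rfl : m = n := by omega
        exact h1
  refine Set.infinite_of_injective_forall_mem (f := fun n : ℕ => ({(n, n)} : Set (ℕ × ℕ)))
    (fun a b h => ?_) (fun n => (key n).1) hf
  simpa using h

end Pool.Agent.Results.MP_b20271_lc.NotTunable
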